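import Mathlib
import Pool.Agent.Lib.MP_c82530_nt.AA.LoSub
import Pool.Agent.Lib.MP_c82530_nt.Bridge

set_option autoImplicit false

namespace Pool.Agent.Lib.MP_c82530_nt.AB

open Set Pool.Agent.Lib.MP_c82530_nt Pool.Agent.Lib.MP_c82530_nt.AA Module

/-- membership in the algebraic closure of `ℚ(L, exp W)` -/
def InL (L : Set ℂ) (W : Submodule ℚ ℂ) (y : ℂ) : Prop := y ∈ AM.closure (expSet W ∪ L)

/-- the exponentials of `X` are free over `L` -/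
def FreeL (L : Set ℂ) (X : Submodule ℚ ℂ) : Prop :=
  ∀ H ≤ X, ∀ b ∈ X, b ∉ H → Complex.exp b ∉ AM.closure (expSet H ∪ L)

/-- the exponentials of all spaces of dimension at most `m` are free over `L` -/
def FreeUp (L : Set ℂ) (m : ℕ) : Prop := ∀ X, Good X → finrank ℚ X ≤ m → FreeL L X

/-- the field of numbers algebraic over `ℚ(s)` as a `ℚ`-space -/
noncomputable def KS (s : Set ℂ) : Submodule ℚ ℂ := (clF s).toSubalgebra.toSubmodule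

/-- the logarithm of an integer as a complex number -/
noncomputable def lg (b : ℕ) : ℂ := ((Real.log (b : ℝ) : ℝ) : ℂ)

/-- the exceptional case: almost all primes have logarithms in a field of finite transcendence
degree -/
def EXC : Prop := ∃ (t : ℕ) (C : ℝ) (A : Set ℕ), (∀ p ∈ A, p.Prime) ∧
  (∀ P : Finset ℕ, (∀ p ∈ P, p.Prime ∧ p ∉ A) → ∑ p ∈ P, (p : ℝ)⁻¹ ≤ C) ∧
    AM.eRk (lg '' A) ≤ t

/-- algebraic independence of `exp α`, `x` over the algebraic numbers -/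
abbrev AIx {n r : ℕ} (α : Fin n → ℂ) (x : Fin r → ℂ) : Prop :=
  AlgebraicIndependent (integralClosure ℚ ℂ) (Sum.elim (fun i : Fin n => Complex.exp (α i)) x)

/-- piece INF: `K_{W1} ∩ K_{W2} = K_{W1 ∩ W2}` over `L`.
Proof: induction on `finrank W1`. If `W1 ≤ W2` nothing to do. Otherwise take `b ∈ W1`, `b ∉ W2` and
a hyperplane `H` of `X` with `W2 ≤ H`, `b ∉ H`, `X = H ⊔ ℚ b`. If `y ∉ cl(exp(W1 ⊓ H) ∪ L)`, the
exchange property gives `exp b ∈ cl(exp(W1 ⊓ H) ∪ L ∪ {y}) ⊆ cl(exp H ∪ L)`, against `FreeL L X`.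
So `y ∈ K_{W1 ⊓ H}` and `W1 ⊓ H` is smaller, `W1 ⊓ H ⊓ W2 = W1 ⊓ W2`. -/
def S_inf : Prop := ∀ (L : Set ℂ) (X : Submodule ℚ ℂ), Good X → FreeL L X →
  ∀ W1 ≤ X, ∀ W2 ≤ X, ∀ y, InL L W1 y → InL L W2 y → InL L (W1 ⊓ W2) y

/-- piece RAL: as `AA.ral` (file AA/Rel.lean), over `L`, all spaces inside `X`; needs the scaling
endomorphism over `L`: for `s : Set ℂ` and `τ ∉ cl s` there are a relatively algebraically closed
`F ⊇ cl s`, `τ ∉ F` and `σ : ℂ →ₐ[F] ℂ` with `σ τ = 2 τ` (as `exists_scaling` in Scale.lean). -/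
def S_ral : Prop := ∀ (L : Set ℂ) (X : Submodule ℚ ℂ), Good X → FreeL L X →
  ∀ A ≤ X, ∀ B ≤ X, ∀ T ≤ X, A ⊓ B ≤ T → ∀ y y' : ℂ, InL L A y → InL L B y' → InL L T (y - y') →
    InL L T y

/-- piece CPT: compactness for fields of bounded transcendence degree.
Proof: if not, some `t, C, x₀`: for all `x` there is `s_x` of rank `≤ t` with
`EK (KS s_x) (primes in (x₀, x]) < C`. With a nonprincipal ultrafilter on `x` let
`A = {p prime : p ≤ x₀ or log p ∈ KS s_x for U-many x}`. Finite subsets of `A ∩ (x₀, ∞)` have rank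
`≤ t`, so `A` has rank `≤ t + x₀`; finite sets of primes outside `A` have weight `≤ C`. -/
def S_cpt : Prop := ¬ EXC → ∀ (t : ℕ) (C : ℝ) (x₀ : ℕ), ∃ P : Finset ℕ,
  (∀ p ∈ P, p.Prime ∧ x₀ < p) ∧ ∀ s : Set ℂ, AM.eRk s ≤ t → C ≤ EK (KS s) P

/-- piece SNOC -/
def S_snoc : Prop := ∀ (n r : ℕ) (α : Fin n → ℂ) (x : Fin r → ℂ) (w : ℂ),
  (∀ i, IsAlgebraic ℚ (α i)) → LinearIndependent ℚ α →
  (AIx α (Fin.snoc x w : Fin (r + 1) → ℂ) ↔
    AIx α x ∧ ¬ InL (range x) (Submodule.span ℚ (range α)) w)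

/-- piece FREE: the meaning of `FreeUp` -/
def S_free : Prop := ∀ (m r : ℕ) (x : Fin r → ℂ),
  (∀ k ≤ m, ∀ α : Fin k → ℂ, (∀ i, IsAlgebraic ℚ (α i)) → LinearIndependent ℚ α → AIx α x) →
  FreeUp (range x) m

/-- weighted sums over the `r`-tuples of positive integers up to `N` in a set `D` -/
noncomputable def Wt {r : ℕ} (D : Set (Fin r → ℕ)) (N : ℕ) : ℝ :=
  ∑ b ∈ Fintype.piFinset (fun _ : Fin r => Finset.Icc 1 N),
    D.indicator (fun b : Fin r → ℕ => ∏ i, ((b i : ℕ) : ℝ)⁻¹) b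

/-- logarithmic density zero for tuples -/
def LNr {r : ℕ} (D : Set (Fin r → ℕ)) : Prop :=
  Filter.Tendsto (fun N : ℕ => Wt D N / (Real.log N) ^ r) Filter.atTop (nhds 0)

/-- piece UNI: unions and subsets -/
def S_uni : Prop := ∀ (r : ℕ) (D D' : Set (Fin r → ℕ)), LNr D → LNr D' → LNr (D ∪ D')

/-- piece SUB -/
def S_sub : Prop := ∀ (r : ℕ) (D D' : Set (Fin r → ℕ)),
  (∀ b ∈ D, (∀ i, b i ≠ 0) → b ∈ D') → LNr D' → LNr D

/-- piece IND: the induction step for densities. `D : Set (Fin (r+1) → ℕ)`; for every `ε > 0` there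
is an exceptional set `D' = D' ε` of `r`-tuples of density zero and `N₀` with: for `N ≥ N₀` and
every `b' ∉ D'` with positive entries, the last entries `b ≤ N` with `(b', b) ∈ D` have weight at
most `ε log N`. -/
def S_ind : Prop := ∀ (r : ℕ) (D : Set (Fin (r + 1) → ℕ)),
  (∀ ε : ℝ, 0 < ε → ∃ (D' : Set (Fin r → ℕ)) (N₀ : ℕ), LNr D' ∧ ∀ N, N₀ ≤ N →
    ∀ b' : Fin r → ℕ, b' ∉ D' → (∀ i, b' i ≠ 0) →
      ∑ b ∈ Finset.Icc 1 N, {b : ℕ | (Fin.snoc b' b : Fin (r + 1) → ℕ) ∈ D}.indicator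
        (fun b : ℕ => (b : ℝ)⁻¹) b ≤ ε * Real.log N) →
  LNr D

/-- piece HAR: the harmonic sum is at most `2 log N` for `N ≥ 4` -/
def S_har : Prop := ∀ N : ℕ, 4 ≤ N → ∑ b ∈ Finset.Icc 1 N, (b : ℝ)⁻¹ ≤ 2 * Real.log N

/-- piece PRO: if the integers `b ≤ N` in `B` have weight at least `(1 - ε) * (1 + 1/2 + .. + 1/N)`
then the tuples in `B^r` have weight at least `(1 - ε)^r (1 + .. + 1/N)^r`. -/
def S_pro : Prop := ∀ (r : ℕ) (B : Set ℕ) (ε : ℝ) (N : ℕ), 0 ≤ ε → ε ≤ 1 →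
  (1 - ε) * ∑ b ∈ Finset.Icc 1 N, (b : ℝ)⁻¹ ≤
    ∑ b ∈ Finset.Icc 1 N, B.indicator (fun b : ℕ => (b : ℝ)⁻¹) b →
  (1 - ε) ^ r * (∑ b ∈ Finset.Icc 1 N, (b : ℝ)⁻¹) ^ r ≤
    Wt {b : Fin r → ℕ | ∀ i, b i ∈ B} N

/-- piece FRA: integers all of whose prime factors are in `A` -/
def S_fra : Prop := ∀ (A : Set ℕ) (ε : ℝ),
  (∀ P : Finset ℕ, (∀ p ∈ P, p.Prime ∧ p ∉ A) → ∑ p ∈ P, (p : ℝ)⁻¹ ≤ ε) → ∀ N : ℕ,
  (1 - ε) * ∑ b ∈ Finset.Icc 1 N, (b : ℝ)⁻¹ ≤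
    ∑ b ∈ Finset.Icc 1 N, {b : ℕ | ∀ p : ℕ, p.Prime → p ∣ b → p ∈ A}.indicator
      (fun b : ℕ => (b : ℝ)⁻¹) b

end Pool.Agent.Lib.MP_c82530_nt.AB
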