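import Mathlib
import Pool.Agent.Lib.MP_c82530_nt.AB.Stm

set_option autoImplicit false

namespace Pool.Agent.Lib.MP_c82530_nt.AB

open Set Pool.Agent.Lib.MP_c82530_nt Pool.Agent.Lib.MP_c82530_nt.AA Module Filter

private lemma cpt_mem_KS {s : Set ℂ} {z : ℂ} : z ∈ KS s ↔ z ∈ AM.closure s := mem_clF

theorem p_cpt : S_cpt := by
  classical
  intro hE t C x₀
  by_contra hcon
  push Not at hcon
  -- the finite sets of primes in `(x₀, x]`
  let Px : ℕ → Finset ℕ := fun x => (Finset.range (x + 1)).filter (fun p => p.Prime ∧ x₀ < p)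
  have hPx : ∀ x, ∀ p ∈ Px x, p.Prime ∧ x₀ < p := fun x p hp => (Finset.mem_filter.mp hp).2
  choose s hs1 hs2 using fun x => hcon (Px x) (hPx x)
  let U : Ultrafilter ℕ := Filter.hyperfilter ℕ
  have hU : (U : Filter ℕ) ≤ atTop := by
    rw [← Nat.cofinite_eq_atTop]
    exact Filter.hyperfilter_le_cofinite
  let A : Set ℕ := {p | p.Prime ∧ ∀ᶠ x in (U : Filter ℕ), lg p ∈ KS (s x)}
  apply hE
  refine ⟨t, C + ∑ p ∈ Finset.range (x₀ + 1), (p : ℝ)⁻¹, A, fun p hp => hp.1, ?_, ?_⟩
  · intro P hP
    rw [← Finset.sum_filter_add_sum_filter_not P (fun p => x₀ < p)]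
    apply add_le_add
    · -- primes above `x₀`
      have hev : ∀ᶠ x in (U : Filter ℕ), ∀ p ∈ P.filter (fun p => x₀ < p),
          p ∈ Out (KS (s x)) (Px x) := by
        rw [Filter.eventually_all_finset]
        intro p hp
        rw [Finset.mem_filter] at hp
        have hpP := hP p hp.1
        have h1 : ∀ᶠ x in (U : Filter ℕ), lg p ∉ KS (s x) := by
          rw [Ultrafilter.eventually_not]
          intro h2
          exact hpP.2 ⟨hpP.1, h2⟩
        have h2 : ∀ᶠ x in (U : Filter ℕ), p ≤ x := hU (eventually_ge_atTop p)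
        filter_upwards [h1, h2] with x h3 h4
        rw [mem_Out]
        refine ⟨?_, h3⟩
        exact Finset.mem_filter.mpr ⟨Finset.mem_range.mpr (by omega), hpP.1, hp.2⟩
      obtain ⟨x, hx⟩ := hev.exists
      refine le_trans ?_ (hs2 x).le
      unfold EK
      exact Finset.sum_le_sum_of_subset_of_nonneg hx fun p _ _ => by positivity
    · apply Finset.sum_le_sum_of_subset_of_nonneg
      · intro p hp
        rw [Finset.mem_filter] at hp
        rw [Finset.mem_range]
        have := hp.2
        omega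
      · intro p _ _
        positivity
  · by_contra hlt
    rw [not_le] at hlt
    have h1 : ((t + 1 : ℕ) : ℕ∞) ≤ AM.eRk (lg '' A) := by
      have := Order.add_one_le_of_lt hlt
      exact_mod_cast this
    obtain ⟨I, hIs, hI, hIc⟩ := Matroid.le_eRk_iff.mp h1
    have hfin : I.Finite := by
      rw [← Set.encard_lt_top_iff, hIc]
      exact ENat.natCast_lt_top _
    have hev : ∀ᶠ x in (U : Filter ℕ), ∀ z ∈ hfin.toFinset, z ∈ AM.closure (s x) := by
      rw [Filter.eventually_all_finset]
      intro z hz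
      rw [Set.Finite.mem_toFinset] at hz
      obtain ⟨p, hp, rfl⟩ := hIs hz
      filter_upwards [hp.2] with x hx
      exact cpt_mem_KS.mp hx
    obtain ⟨x, hx⟩ := hev.exists
    have h2 : I ⊆ AM.closure (s x) := fun z hz => hx z (by rwa [Set.Finite.mem_toFinset])
    have h3 : AM.eRk I ≤ t := by
      refine (AM.eRk_mono h2).trans ?_
      rw [Matroid.eRk_closure_eq]
      exact hs1 x
    rw [hI.eRk_eq_encard, hIc] at h3
    have h4 : t + 1 ≤ t := by exact_mod_cast h3
    omega

end Pool.Agent.Lib.MP_c82530_nt.AB
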