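import Pool.Agent.Lib.MP_c82530_nt.AB.Stm

set_option autoImplicit false

/-!
Piece FRA: integers all of whose prime factors are in a set of primes.
-/

namespace Pool.Agent.Lib.MP_c82530_nt.AB

private theorem fra_inner (N p : ℕ) (hp : 0 < p) :
    ∑ b ∈ Finset.Icc 1 N, (if p ∣ b then (b : ℝ)⁻¹ else 0) ≤
      (p : ℝ)⁻¹ * ∑ m ∈ Finset.Icc 1 N, (m : ℝ)⁻¹ := by
  rw [← Finset.sum_filter]
  have h1 : (Finset.Icc 1 N).filter (fun b => p ∣ b) ⊆
      (Finset.Icc 1 N).image (fun m => p * m) := by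
    intro b hb
    rw [Finset.mem_filter, Finset.mem_Icc] at hb
    obtain ⟨⟨hb1, hb2⟩, m, rfl⟩ := hb
    rw [Finset.mem_image]
    refine ⟨m, Finset.mem_Icc.2 ⟨?_, ?_⟩, rfl⟩
    · rcases Nat.eq_zero_or_pos m with h | h
      · subst h
        simp at hb1
      · exact h
    · exact le_trans (Nat.le_mul_of_pos_left m hp) hb2
  refine (Finset.sum_le_sum_of_subset_of_nonneg h1 fun b _ _ => by positivity).trans ?_
  rw [Finset.sum_image (fun a _ b _ h => Nat.eq_of_mul_eq_mul_left hp h), Finset.mul_sum]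
  refine Finset.sum_le_sum fun m _ => ?_
  push_cast
  rw [mul_inv]

theorem p_fra : S_fra := by
  classical
  intro A ε hA N
  set B : Set ℕ := {b : ℕ | ∀ p : ℕ, p.Prime → p ∣ b → p ∈ A} with hB
  set P : Finset ℕ := (Finset.Icc 1 N).filter (fun p => p.Prime ∧ p ∉ A) with hP
  have hPε : ∑ p ∈ P, (p : ℝ)⁻¹ ≤ ε := hA P fun p hp => (Finset.mem_filter.1 hp).2
  have hH : 0 ≤ ∑ b ∈ Finset.Icc 1 N, (b : ℝ)⁻¹ :=
    Finset.sum_nonneg fun b _ => by positivity
  have h1 : ∑ b ∈ Finset.Icc 1 N, (b : ℝ)⁻¹ -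
      ∑ b ∈ Finset.Icc 1 N, B.indicator (fun b : ℕ => (b : ℝ)⁻¹) b ≤
      ε * ∑ b ∈ Finset.Icc 1 N, (b : ℝ)⁻¹ := by
    rw [← Finset.sum_sub_distrib]
    calc ∑ b ∈ Finset.Icc 1 N, ((b : ℝ)⁻¹ - B.indicator (fun b : ℕ => (b : ℝ)⁻¹) b)
        ≤ ∑ b ∈ Finset.Icc 1 N, ∑ p ∈ P, (if p ∣ b then (b : ℝ)⁻¹ else 0) := by
          refine Finset.sum_le_sum fun b hb => ?_
          rw [Finset.mem_Icc] at hb
          have hnn : ∀ p ∈ P, (0 : ℝ) ≤ (if p ∣ b then (b : ℝ)⁻¹ else 0) := fun p _ => by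
            split_ifs
            · positivity
            · exact le_refl _
          by_cases hbB : b ∈ B
          · rw [Set.indicator_of_mem hbB, sub_self]
            exact Finset.sum_nonneg hnn
          · rw [Set.indicator_of_notMem hbB, sub_zero]
            have h2 : ∃ p : ℕ, p.Prime ∧ p ∣ b ∧ p ∉ A := by
              by_contra hcon
              push Not at hcon
              exact hbB hcon
            obtain ⟨p, hp, hpb, hpA⟩ := h2
            have hpP : p ∈ P := by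
              rw [hP, Finset.mem_filter, Finset.mem_Icc]
              exact ⟨⟨hp.one_lt.le, (Nat.le_of_dvd (by omega) hpb).trans hb.2⟩, hp, hpA⟩
            have h3 := Finset.single_le_sum hnn hpP
            rwa [if_pos hpb] at h3
      _ = ∑ p ∈ P, ∑ b ∈ Finset.Icc 1 N, (if p ∣ b then (b : ℝ)⁻¹ else 0) := Finset.sum_comm
      _ ≤ ∑ p ∈ P, (p : ℝ)⁻¹ * ∑ m ∈ Finset.Icc 1 N, (m : ℝ)⁻¹ :=
          Finset.sum_le_sum fun p hp => fra_inner N p
            ((Finset.mem_filter.1 hp).2.1.pos)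
      _ = (∑ p ∈ P, (p : ℝ)⁻¹) * ∑ m ∈ Finset.Icc 1 N, (m : ℝ)⁻¹ := by rw [Finset.sum_mul]
      _ ≤ ε * ∑ b ∈ Finset.Icc 1 N, (b : ℝ)⁻¹ := mul_le_mul_of_nonneg_right hPε hH
  linarith

end Pool.Agent.Lib.MP_c82530_nt.AB
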