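import Mathlib
import Pool.Agent.Lib.MP_c82530_nt.AB.Stm

set_option autoImplicit false

namespace Pool.Agent.Lib.MP_c82530_nt.AB

open Set Pool.Agent.Lib.MP_c82530_nt Pool.Agent.Lib.MP_c82530_nt.AA Module

/-- `AIx` over the rational numbers -/
lemma snoc_aix_iff {n r : ℕ} (α : Fin n → ℂ) (x : Fin r → ℂ) :
    AIx α x ↔ AlgebraicIndependent ℚ (Sum.elim (fun i : Fin n => Complex.exp (α i)) x) := by
  constructor
  · intro h
    exact h.restrictScalars (algebraMap ℚ (integralClosure ℚ ℂ)).injective
  · intro h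
    exact h.integralClosure

/-- moving the last element of the right part to the front -/
def snocR (ι : Type) (r : ℕ) : Option (ι ⊕ Fin r) ≃ ι ⊕ Fin (r + 1) where
  toFun o := o.elim (Sum.inr (Fin.last r)) (Sum.elim Sum.inl (fun j => Sum.inr j.castSucc))
  invFun s := Sum.elim (fun i => some (Sum.inl i))
    (Fin.lastCases (motive := fun _ => Option (ι ⊕ Fin r)) none (fun j => some (Sum.inr j))) s
  left_inv o := by
    rcases o with _ | (i | j)
    · simp
    · rfl
    · simp
  right_inv s := by
    rcases s with i | j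
    · rfl
    · refine Fin.lastCases ?_ (fun j => ?_) j
      · simp
      · simp

/-- moving the last element of the left part to the front -/
def snocL (h : ℕ) (κ : Type) : Option (Fin h ⊕ κ) ≃ Fin (h + 1) ⊕ κ where
  toFun o := o.elim (Sum.inl (Fin.last h)) (Sum.elim (fun j => Sum.inl j.castSucc) Sum.inr)
  invFun s := Sum.elim (Fin.lastCases (motive := fun _ => Option (Fin h ⊕ κ)) none
    (fun j => some (Sum.inl j))) (fun i => some (Sum.inr i)) s
  left_inv o := by
    rcases o with _ | (i | j)
    · simp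
    · simp
    · rfl
  right_inv s := by
    rcases s with j | i
    · refine Fin.lastCases ?_ (fun j => ?_) j
      · simp
      · simp
    · rfl

lemma snocR_iff {ι : Type} {r : ℕ} (e : ι → ℂ) (x : Fin r → ℂ) (w : ℂ) :
    AlgebraicIndependent ℚ (Sum.elim e (Fin.snoc x w : Fin (r + 1) → ℂ)) ↔
      AlgebraicIndependent ℚ (Sum.elim e x) ∧ w ∉ AM.closure (range e ∪ range x) := by
  have h1 : (Sum.elim e (Fin.snoc x w : Fin (r + 1) → ℂ)) ∘ snocR ι r =
      fun o : Option (ι ⊕ Fin r) => o.elim w (Sum.elim e x) := by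
    funext o
    rcases o with _ | (i | j)
    · simp [snocR]
    · rfl
    · simp [snocR]
  rw [← algebraicIndependent_equiv' (snocR ι r) h1, AlgebraicIndependent.option_iff,
    Sum.elim_range, mem_cl]
  rfl

lemma snocL_iff {h : ℕ} {κ : Type} (u : Fin h → ℂ) (v : ℂ) (x : κ → ℂ) :
    AlgebraicIndependent ℚ (Sum.elim (Fin.snoc u v : Fin (h + 1) → ℂ) x) ↔
      AlgebraicIndependent ℚ (Sum.elim u x) ∧ v ∉ AM.closure (range u ∪ range x) := by
  have h1 : (Sum.elim (Fin.snoc u v : Fin (h + 1) → ℂ) x) ∘ snocL h κ =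
      fun o : Option (Fin h ⊕ κ) => o.elim v (Sum.elim u x) := by
    funext o
    rcases o with _ | (i | j)
    · simp [snocL]
    · simp [snocL]
    · rfl
  rw [← algebraicIndependent_equiv' (snocL h κ) h1, AlgebraicIndependent.option_iff,
    Sum.elim_range, mem_cl]
  rfl

theorem p_snoc : S_snoc := by
  intro n r α x w _ _
  rw [snoc_aix_iff, snoc_aix_iff, snocR_iff]
  unfold InL
  rw [closure_exp_union]

end Pool.Agent.Lib.MP_c82530_nt.AB
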