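import Mathlib
import Pool.Agent.Lib.MP_c82530_nt.AB.P_snoc

set_option autoImplicit false

namespace Pool.Agent.Lib.MP_c82530_nt.AB

open Set Pool.Agent.Lib.MP_c82530_nt Pool.Agent.Lib.MP_c82530_nt.AA Module

theorem p_free : S_free := by
  intro m r x hx X hX hm H hH b hb hbH hcon
  have fX := hX.1
  have gH : Good H := hX.of_le hH
  have fH := gH.1
  let β := Module.finBasis ℚ H
  let u : Fin (finrank ℚ H) → ℂ := fun i => (β i : ℂ)
  have hspan : Submodule.span ℚ (range u) = H := by
    have h1 := congrArg (Submodule.map H.subtype) β.span_eq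
    rw [Submodule.map_span, ← range_comp, Submodule.map_top, Submodule.range_subtype] at h1
    exact h1
  have hu : LinearIndependent ℚ u := by
    have := β.linearIndependent.map' H.subtype (Submodule.ker_subtype H)
    exact this
  have hlin : LinearIndependent ℚ (Fin.snoc u b : Fin (finrank ℚ H + 1) → ℂ) := by
    rw [linearIndependent_finSnoc]
    refine ⟨hu, ?_⟩
    rw [hspan]
    exact hbH
  have halg : ∀ i, IsAlgebraic ℚ ((Fin.snoc u b : Fin (finrank ℚ H + 1) → ℂ) i) := by
    intro i
    refine Fin.lastCases ?_ (fun j => ?_) i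
    · rw [Fin.snoc_last]
      exact hX.2 b hb
    · rw [Fin.snoc_castSucc]
      exact gH.2 _ (β j).2
  have hlt : finrank ℚ H + 1 ≤ m := by
    have h1 : H < X := lt_of_le_of_ne hH (fun h => hbH (h ▸ hb))
    have h2 := Submodule.finrank_lt_finrank_of_lt h1
    omega
  have h3 := hx (finrank ℚ H + 1) hlt _ halg hlin
  rw [snoc_aix_iff] at h3
  have h4 : (fun i : Fin (finrank ℚ H + 1) =>
      Complex.exp ((Fin.snoc u b : Fin (finrank ℚ H + 1) → ℂ) i)) =
      (Fin.snoc (fun i => Complex.exp (u i)) (Complex.exp b) : Fin (finrank ℚ H + 1) → ℂ) := by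
    funext i
    refine Fin.lastCases ?_ (fun j => ?_) i
    · rw [Fin.snoc_last, Fin.snoc_last]
    · rw [Fin.snoc_castSucc, Fin.snoc_castSucc]
  rw [h4, snocL_iff] at h3
  apply h3.2
  rw [closure_exp_union, hspan]
  exact hcon

end Pool.Agent.Lib.MP_c82530_nt.AB
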