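import Mathlib
import Pool.Agent.Lib.MP_c82530_nt.AB.Stm

set_option autoImplicit false

namespace Pool.Agent.Lib.MP_c82530_nt.AB

theorem p_har : S_har := by
  intro N hN
  have h1 := harmonic_le_one_add_log N
  have h2 : ((harmonic N : ℚ) : ℝ) = ∑ b ∈ Finset.Icc 1 N, (b : ℝ)⁻¹ := by
    rw [harmonic_eq_sum_Icc]
    push_cast
    rfl
  rw [h2] at h1
  have h3 : 1 ≤ Real.log N := by
    have h4 : (Real.exp 1) ≤ N := by
      have h5 : Real.exp 1 < 3 := lt_trans Real.exp_one_lt_d9 (by norm_num)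
      have h6 : (4 : ℝ) ≤ N := by exact_mod_cast hN
      linarith
    have h7 := Real.log_le_log (Real.exp_pos 1) h4
    rwa [Real.log_exp] at h7
  linarith

end Pool.Agent.Lib.MP_c82530_nt.AB
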