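import Pool.Agent.Lib.MP_c82530_nt.AB.Stm

set_option autoImplicit false

/-!
Piece IND: the induction step for logarithmic densities of sets of tuples.
-/

namespace Pool.Agent.Lib.MP_c82530_nt.AB

private theorem ind_har (N : ℕ) (hN : 4 ≤ N) :
    ∑ b ∈ Finset.Icc 1 N, (b : ℝ)⁻¹ ≤ 2 * Real.log N := by
  have h1 := harmonic_le_one_add_log N
  rw [harmonic_eq_sum_Icc] at h1
  push_cast at h1
  have h2 : (1 : ℝ) ≤ Real.log N := by
    rw [Real.le_log_iff_exp_le (by positivity)]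
    have h3 : (4 : ℝ) ≤ N := by exact_mod_cast hN
    have h4 := Real.exp_one_lt_d9
    linarith
  linarith

private theorem ind_pow (r N : ℕ) :
    ∑ b ∈ Fintype.piFinset (fun _ : Fin r => Finset.Icc 1 N), ∏ i, ((b i : ℕ) : ℝ)⁻¹ =
      (∑ b ∈ Finset.Icc 1 N, (b : ℝ)⁻¹) ^ r := by
  have h2 := Finset.prod_univ_sum (fun _ : Fin r => Finset.Icc 1 N)
    (fun (_ : Fin r) (b : ℕ) => (b : ℝ)⁻¹)
  rw [Finset.prod_const, Finset.card_univ, Fintype.card_fin] at h2
  exact h2.symm

private theorem ind_snoc (r N : ℕ) (g : (Fin (r + 1) → ℕ) → ℝ) :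
    ∑ b ∈ Fintype.piFinset (fun _ : Fin (r + 1) => Finset.Icc 1 N), g b =
      ∑ b' ∈ Fintype.piFinset (fun _ : Fin r => Finset.Icc 1 N),
        ∑ b ∈ Finset.Icc 1 N, g (Fin.snoc b' b) := by
  rw [← Finset.sum_product']
  refine Finset.sum_bij' (fun b _ => (Fin.init b, b (Fin.last r)))
    (fun p _ => Fin.snoc p.1 p.2) ?_ ?_ ?_ ?_ ?_
  · intro b hb
    rw [Fintype.mem_piFinset] at hb
    rw [Finset.mem_product, Fintype.mem_piFinset]
    exact ⟨fun i => hb i.castSucc, hb _⟩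
  · intro p hp
    rw [Finset.mem_product, Fintype.mem_piFinset] at hp
    rw [Fintype.mem_piFinset]
    intro i
    refine Fin.lastCases ?_ (fun j => ?_) i
    · rw [Fin.snoc_last]
      exact hp.2
    · rw [Fin.snoc_castSucc]
      exact hp.1 j
  · intro b _
    exact Fin.snoc_init_self b
  · intro p _
    refine Prod.ext ?_ ?_
    · exact Fin.init_snoc (α := fun _ => ℕ) _ _
    · exact Fin.snoc_last (α := fun _ => ℕ) _ _
  · intro b _
    rw [Fin.snoc_init_self]

private theorem ind_nonneg {r : ℕ} (D : Set (Fin r → ℕ)) (N : ℕ) : 0 ≤ Wt D N := by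
  unfold Wt
  refine Finset.sum_nonneg fun b _ => ?_
  refine Set.indicator_nonneg (fun b _ => ?_) b
  exact Finset.prod_nonneg fun i _ => by positivity

theorem p_ind : S_ind := by
  classical
  intro r D hD
  unfold LNr
  rw [Metric.tendsto_atTop]
  intro δ hδ
  obtain ⟨D', N₀, hD', hN₀⟩ := hD (δ / (4 * 2 ^ r)) (by positivity)
  unfold LNr at hD'
  rw [Metric.tendsto_atTop] at hD'
  obtain ⟨N₁, hN₁⟩ := hD' (δ / 8) (by positivity)
  refine ⟨max (max N₀ N₁) 4, fun N hN => ?_⟩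
  have hN0 : N₀ ≤ N := le_trans (le_trans (le_max_left _ _) (le_max_left _ _)) hN
  have hN1 : N₁ ≤ N := le_trans (le_trans (le_max_right _ _) (le_max_left _ _)) hN
  have hN4 : 4 ≤ N := le_trans (le_max_right _ _) hN
  have hlog : 0 < Real.log N := Real.log_pos (by
    have : (4 : ℝ) ≤ N := by exact_mod_cast hN4
    linarith)
  have hD'N := hN₁ N hN1
  rw [Real.dist_eq, sub_zero, abs_of_nonneg (div_nonneg (ind_nonneg _ _) (by positivity)),
    div_lt_iff₀ (by positivity)] at hD'N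
  rw [Real.dist_eq, sub_zero, abs_of_nonneg (div_nonneg (ind_nonneg _ _) (by positivity)),
    div_lt_iff₀ (by positivity)]
  set H : ℝ := ∑ b ∈ Finset.Icc 1 N, (b : ℝ)⁻¹ with hH
  have hH2 : H ≤ 2 * Real.log N := ind_har N hN4
  have hH0 : 0 ≤ H := Finset.sum_nonneg fun b _ => by positivity
  have hprod : ∀ b' : Fin r → ℕ, (0 : ℝ) ≤ ∏ i, ((b' i : ℕ) : ℝ)⁻¹ := fun b' =>
    Finset.prod_nonneg fun i _ => by positivity
  have hmain : Wt D N ≤ δ / (4 * 2 ^ r) * Real.log N * H ^ r + H * Wt D' N := by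
    have h1 : Wt D N = ∑ b' ∈ Fintype.piFinset (fun _ : Fin r => Finset.Icc 1 N),
        (∏ i, ((b' i : ℕ) : ℝ)⁻¹) * ∑ b ∈ Finset.Icc 1 N,
          {b : ℕ | (Fin.snoc b' b : Fin (r + 1) → ℕ) ∈ D}.indicator
            (fun b : ℕ => (b : ℝ)⁻¹) b := by
      unfold Wt
      rw [ind_snoc]
      refine Finset.sum_congr rfl fun b' _ => ?_
      rw [Finset.mul_sum]
      refine Finset.sum_congr rfl fun b _ => ?_
      by_cases hb : (Fin.snoc b' b : Fin (r + 1) → ℕ) ∈ D
      · rw [Set.indicator_of_mem hb,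
          Set.indicator_of_mem (show b ∈ {b : ℕ | (Fin.snoc b' b : Fin (r + 1) → ℕ) ∈ D} from hb),
          Fin.prod_univ_castSucc]
        congr 1
        · refine Finset.prod_congr rfl fun i _ => ?_
          rw [Fin.snoc_castSucc (α := fun _ => ℕ)]
        · rw [Fin.snoc_last (α := fun _ => ℕ)]
      · rw [Set.indicator_of_notMem hb, Set.indicator_of_notMem
          (show b ∉ {b : ℕ | (Fin.snoc b' b : Fin (r + 1) → ℕ) ∈ D} from hb), mul_zero]
    have h2 : Wt D' N = ∑ b' ∈ Fintype.piFinset (fun _ : Fin r => Finset.Icc 1 N),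
        (∏ i, ((b' i : ℕ) : ℝ)⁻¹) * (if b' ∈ D' then 1 else 0) := by
      unfold Wt
      refine Finset.sum_congr rfl fun b' _ => ?_
      by_cases hb : b' ∈ D'
      · rw [Set.indicator_of_mem hb, if_pos hb, mul_one]
      · rw [Set.indicator_of_notMem hb, if_neg hb, mul_zero]
    rw [h1, h2, ← ind_pow r N, Finset.mul_sum, Finset.mul_sum, ← Finset.sum_add_distrib]
    refine Finset.sum_le_sum fun b' hb' => ?_
    rw [Fintype.mem_piFinset] at hb'
    have hb0 : ∀ i, b' i ≠ 0 := fun i => by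
      have := (Finset.mem_Icc.1 (hb' i)).1
      omega
    by_cases hb : b' ∈ D'
    · rw [if_pos hb, mul_one]
      have h3 : ∑ b ∈ Finset.Icc 1 N, {b : ℕ | (Fin.snoc b' b : Fin (r + 1) → ℕ) ∈ D}.indicator
          (fun b : ℕ => (b : ℝ)⁻¹) b ≤ H := by
        refine Finset.sum_le_sum fun b _ => ?_
        exact Set.indicator_le_self' (fun _ _ => by positivity) b
      have h4 := mul_le_mul_of_nonneg_left h3 (hprod b')
      have h5 : 0 ≤ δ / (4 * 2 ^ r) * Real.log N * ∏ i, ((b' i : ℕ) : ℝ)⁻¹ :=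
        mul_nonneg (by positivity) (hprod b')
      linarith
    · rw [if_neg hb, mul_zero, mul_zero, add_zero]
      have h3 := mul_le_mul_of_nonneg_left (hN₀ N hN0 b' hb hb0) (hprod b')
      linarith
  have h6 : H ^ r ≤ 2 ^ r * Real.log N ^ r := by
    rw [← mul_pow]
    exact pow_le_pow_left₀ hH0 hH2 r
  have h7 : δ / (4 * 2 ^ r) * Real.log N * H ^ r ≤ δ / 4 * Real.log N ^ (r + 1) := by
    calc δ / (4 * 2 ^ r) * Real.log N * H ^ r
        ≤ δ / (4 * 2 ^ r) * Real.log N * (2 ^ r * Real.log N ^ r) :=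
          mul_le_mul_of_nonneg_left h6 (by positivity)
      _ = δ / 4 * Real.log N ^ (r + 1) := by
          rw [pow_succ]
          field_simp
  have h8 : H * Wt D' N ≤ δ / 4 * Real.log N ^ (r + 1) := by
    calc H * Wt D' N ≤ (2 * Real.log N) * (δ / 8 * Real.log N ^ r) :=
          mul_le_mul hH2 hD'N.le (ind_nonneg _ _) (by positivity)
      _ = δ / 4 * Real.log N ^ (r + 1) := by ring
  have h9 : 0 < δ * Real.log N ^ (r + 1) := by positivity
  linarith

end Pool.Agent.Lib.MP_c82530_nt.AB
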