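import Pool.Agent.Lib.MP_c82530_nt.AB.Stm

set_option autoImplicit false

/-!
Piece INF: closures over `L` of exponentials of subspaces intersect well.
-/

namespace Pool.Agent.Lib.MP_c82530_nt.AB

open Set Pool.Agent.Lib.MP_c82530_nt Pool.Agent.Lib.MP_c82530_nt.AA Module

lemma inf_mono {L : Set ℂ} {W1 W2 : Submodule ℚ ℂ} (h : W1 ≤ W2) {z : ℂ}
    (hz : InL L W1 z) : InL L W2 z :=
  AM.closure_subset_closure (union_subset_union_left L (image_mono h)) hz

/-- a hyperplane of `X` through `W`, not through `b` -/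
lemma inf_hyper {X W : Submodule ℚ ℂ} (hX : Good X) (hWX : W ≤ X) {b : ℂ} (hb : b ∈ X)
    (hbW : b ∉ W) : ∃ H ≤ X, W ≤ H ∧ b ∉ H ∧ ∀ v ∈ X, v ∈ H ⊔ Submodule.span ℚ {b} := by
  obtain ⟨H, hH, hWH, hbH, hsup⟩ := exists_hyperplane' (fun w hw => hX.2 w (hWX hw)) (hX.2 b hb) hbW
  refine ⟨H ⊓ X, inf_le_right, le_inf hWH hWX, fun h => hbH h.1, fun v hv => ?_⟩
  obtain ⟨h, hh, x, hx, hx2⟩ := Submodule.mem_sup.mp (hsup v (hX.2 v hv))
  refine Submodule.mem_sup.mpr ⟨h, ⟨hh, ?_⟩, x, hx, hx2⟩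
  have hxX : x ∈ X := by
    obtain ⟨q, rfl⟩ := Submodule.mem_span_singleton.mp hx
    exact X.smul_mem q hb
  have : h = v - x := by rw [← hx2]; ring
  rw [this]
  exact X.sub_mem hv hxX

/-- reduction to the hyperplane and one more generator -/
lemma inf_split {L : Set ℂ} {W H : Submodule ℚ ℂ} {b y : ℂ} (hb : b ∈ W)
    (hsup : ∀ v ∈ W, v ∈ H ⊔ Submodule.span ℚ {b}) (hy : InL L W y) :
    y ∈ AM.closure (insert (Complex.exp b) (expSet (W ⊓ H) ∪ L)) := by
  have h3 : expSet W ∪ L ⊆ AM.closure (insert (Complex.exp b) (expSet (W ⊓ H) ∪ L)) := by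
    rintro z (⟨w, hw, rfl⟩ | hz)
    · obtain ⟨h, hh, x, hx, hx2⟩ := Submodule.mem_sup.mp (hsup w hw)
      obtain ⟨q, rfl⟩ := Submodule.mem_span_singleton.mp hx
      have hhW : h ∈ W := by
        have h4 := W.sub_mem hw (W.smul_mem q hb)
        rw [← hx2, add_sub_cancel_right] at h4
        exact h4
      rw [← hx2, Complex.exp_add]
      apply mul_mem_cl
      · exact AM.mem_closure_of_mem' (Or.inr (Or.inl ⟨h, ⟨hhW, hh⟩, rfl⟩)) (mem_univ _)
      · exact AM.closure_subset_closure (singleton_subset_iff.mpr (mem_insert _ _))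
          (exp_smul_mem_cl q b)
    · exact AM.mem_closure_of_mem' (Or.inr (Or.inr hz)) (mem_univ _)
  have h4 := AM.closure_subset_closure h3 hy
  rwa [Matroid.closure_closure] at h4

theorem p_inf : S_inf := by
  intro L X hX hF
  have key : ∀ n : ℕ, ∀ W1 ≤ X, finrank ℚ W1 = n → ∀ W2 ≤ X, ∀ y, InL L W1 y → InL L W2 y →
      InL L (W1 ⊓ W2) y := by
    intro n
    induction n using Nat.strong_induction_on with
    | _ n ih =>
    intro W1 h1 hn W2 h2 y hy1 hy2
    by_cases hle : W1 ≤ W2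
    · rw [inf_eq_left.mpr hle]; exact hy1
    obtain ⟨b, hb1, hb2⟩ := SetLike.not_le_iff_exists.mp hle
    obtain ⟨H, hHX, hWH, hbH, hsup⟩ := inf_hyper hX h2 (h1 hb1) hb2
    have hstep : InL L (W1 ⊓ H) y := by
      by_contra hcon
      have h3 := inf_split hb1 (fun v hv => hsup v (h1 hv)) hy1
      have h4 := (Matroid.closure_exchange ⟨h3, hcon⟩).1
      apply hF H hHX b (h1 hb1) hbH
      have h5 : insert y (expSet (W1 ⊓ H) ∪ L) ⊆ AM.closure (expSet H ∪ L) := by
        rintro z (rfl | ⟨w, hw, rfl⟩ | hz)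
        · exact inf_mono hWH hy2
        · exact AM.mem_closure_of_mem' (Or.inl ⟨w, hw.2, rfl⟩) (mem_univ _)
        · exact AM.mem_closure_of_mem' (Or.inr hz) (mem_univ _)
      have h6 := AM.closure_subset_closure h5 h4
      rwa [Matroid.closure_closure] at h6
    have hfd : FiniteDimensional ℚ W1 := (hX.of_le h1).1
    have hlt : finrank ℚ (W1 ⊓ H : Submodule ℚ ℂ) < n := by
      rw [← hn]
      apply Submodule.finrank_lt_finrank_of_lt
      refine lt_of_le_of_ne inf_le_left ?_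
      intro h
      apply hbH
      have h7 : b ∈ W1 ⊓ H := by rw [h]; exact hb1
      exact h7.2
    have h8 := ih _ hlt (W1 ⊓ H) (inf_le_left.trans h1) rfl W2 h2 y hstep hy2
    refine inf_mono ?_ h8
    exact le_inf (inf_le_left.trans inf_le_left) inf_le_right
  intro W1 h1 W2 h2 y hy1 hy2
  exact key _ W1 h1 rfl W2 h2 y hy1 hy2

end Pool.Agent.Lib.MP_c82530_nt.AB
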