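import Pool.Agent.Lib.MP_c82530_nt.AB.Stm

set_option autoImplicit false

/-!
Piece PRO: weights of products.
-/

namespace Pool.Agent.Lib.MP_c82530_nt.AB

theorem p_pro : S_pro := by
  classical
  intro r B ε N h0 h1 h
  have hW : Wt {b : Fin r → ℕ | ∀ i, b i ∈ B} N =
      (∑ b ∈ Finset.Icc 1 N, B.indicator (fun b : ℕ => (b : ℝ)⁻¹) b) ^ r := by
    unfold Wt
    have h2 := Finset.prod_univ_sum (fun _ : Fin r => Finset.Icc 1 N)
      (fun (_ : Fin r) (b : ℕ) => B.indicator (fun b : ℕ => (b : ℝ)⁻¹) b)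
    rw [Finset.prod_const, Finset.card_univ, Fintype.card_fin] at h2
    rw [h2]
    refine Finset.sum_congr rfl fun b _ => ?_
    by_cases hb : ∀ i, b i ∈ B
    · rw [Set.indicator_of_mem (show b ∈ {b : Fin r → ℕ | ∀ i, b i ∈ B} from hb)]
      exact Finset.prod_congr rfl fun i _ =>
        (Set.indicator_of_mem (hb i) (fun b : ℕ => (b : ℝ)⁻¹)).symm
    · rw [Set.indicator_of_notMem (show b ∉ {b : Fin r → ℕ | ∀ i, b i ∈ B} from hb)]
      push Not at hb
      obtain ⟨i, hi⟩ := hb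
      exact (Finset.prod_eq_zero (Finset.mem_univ i) (Set.indicator_of_notMem hi _)).symm
  rw [hW, ← mul_pow]
  refine pow_le_pow_left₀ (mul_nonneg (by linarith) ?_) h r
  exact Finset.sum_nonneg fun b _ => by positivity

end Pool.Agent.Lib.MP_c82530_nt.AB
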