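import Mathlib
import Pool.Agent.Lib.MP_c82530_nt.AB.Stm

set_option autoImplicit false

namespace Pool.Agent.Lib.MP_c82530_nt.AB

open Set Pool.Agent.Lib.MP_c82530_nt Pool.Agent.Lib.MP_c82530_nt.AA Module Filter

private lemma uni_term {r : ℕ} (b : Fin r → ℕ) : (0 : ℝ) ≤ ∏ i, ((b i : ℕ) : ℝ)⁻¹ :=
  Finset.prod_nonneg fun i _ => by positivity

private lemma uni_nonneg {r : ℕ} (D : Set (Fin r → ℕ)) (N : ℕ) : 0 ≤ Wt D N :=
  Finset.sum_nonneg fun b _ => Set.indicator_nonneg (fun b _ => uni_term b) b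

private lemma uni_log (N r : ℕ) : (0 : ℝ) ≤ (Real.log N) ^ r :=
  pow_nonneg (Real.log_natCast_nonneg N) r

theorem p_uni : S_uni := by
  intro r D D' h h'
  unfold LNr at *
  have h1 := h.add h'
  rw [add_zero] at h1
  refine squeeze_zero (fun N => div_nonneg (uni_nonneg _ _) (uni_log N r)) (fun N => ?_) h1
  rw [← add_div]
  refine div_le_div_of_nonneg_right ?_ (uni_log N r)
  unfold Wt
  rw [← Finset.sum_add_distrib]
  refine Finset.sum_le_sum fun b _ => ?_
  have h0 := uni_term b
  by_cases h1 : b ∈ D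
  · rw [Set.indicator_of_mem (Set.mem_union_left D' h1), Set.indicator_of_mem h1]
    have := Set.indicator_nonneg (s := D') (f := fun b : Fin r → ℕ => ∏ i, ((b i : ℕ) : ℝ)⁻¹)
      (fun b _ => uni_term b) b
    linarith
  · by_cases h2 : b ∈ D'
    · rw [Set.indicator_of_mem (Set.mem_union_right D h2), Set.indicator_of_mem h2, Set.indicator_of_notMem h1]
      linarith
    · rw [Set.indicator_of_notMem (fun h3 => h3.elim h1 h2), Set.indicator_of_notMem h1,
        Set.indicator_of_notMem h2]
      linarith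

theorem p_sub : S_sub := by
  intro r D D' hsub h'
  unfold LNr at *
  refine squeeze_zero (fun N => div_nonneg (uni_nonneg _ _) (uni_log N r)) (fun N => ?_) h'
  refine div_le_div_of_nonneg_right ?_ (uni_log N r)
  unfold Wt
  refine Finset.sum_le_sum fun b hb => ?_
  have h0 := uni_term b
  rw [Fintype.mem_piFinset] at hb
  have hb0 : ∀ i, b i ≠ 0 := by
    intro i
    have := (Finset.mem_Icc.mp (hb i)).1
    omega
  by_cases h1 : b ∈ D
  · rw [Set.indicator_of_mem h1, Set.indicator_of_mem (hsub b h1 hb0)]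
  · rw [Set.indicator_of_notMem h1]
    exact Set.indicator_nonneg (fun b _ => uni_term b) b

end Pool.Agent.Lib.MP_c82530_nt.AB
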