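import Mathlib
import Pool.Agent.Lib.MP_c82530_nt.AB.Stm
import Pool.Agent.Lib.MP_c82530_nt.AA.Dens
import Pool.Agent.Lib.MP_c82530_nt.Defect

set_option autoImplicit false

namespace Pool.Agent.Lib.MP_c82530_nt.AB

open Set Pool.Agent.Lib.MP_c82530_nt Pool.Agent.Lib.MP_c82530_nt.AA Module Filter Topology

lemma FreeUp.mono {L : Set ℂ} {m m' : ℕ} (h : FreeUp L m') (hm : m ≤ m') : FreeUp L m :=
  fun X hX hd => h X hX (hd.trans hm)

lemma InL.mono {L : Set ℂ} {A B : Submodule ℚ ℂ} {y : ℂ} (h : InL L A y) (hAB : A ≤ B) :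
    InL L B y :=
  AM.closure_subset_closure (union_subset_union_left L (image_mono hAB)) h

lemma InL.sub {L : Set ℂ} {A : Submodule ℚ ℂ} {y z : ℂ} (h1 : InL L A y) (h2 : InL L A z) :
    InL L A (y - z) := sub_mem_cl h1 h2

theorem exists_leastL (hinf : S_inf) {L : Set ℂ} {m : ℕ} (hF : FreeUp L (2 * m))
    {W : Submodule ℚ ℂ} {y : ℂ} (h : ∃ S, Good S ∧ W ≤ S ∧ finrank ℚ S ≤ m ∧ InL L S y) :
    ∃ T, Good T ∧ W ≤ T ∧ finrank ℚ T ≤ m ∧ InL L T y ∧
      ∀ S, Good S → W ≤ S → finrank ℚ S ≤ m → InL L S y → T ≤ S := by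
  classical
  have hex : ∃ n : ℕ, ∃ S, (Good S ∧ W ≤ S ∧ finrank ℚ S ≤ m ∧ InL L S y) ∧ finrank ℚ S = n := by
    obtain ⟨S, hS⟩ := h
    exact ⟨_, S, hS, rfl⟩
  obtain ⟨T, ⟨hT1, hT2, hT2', hT3⟩, hT4⟩ := Nat.find_spec hex
  refine ⟨T, hT1, hT2, hT2', hT3, fun S hS1 hS2 hS2' hS3 => ?_⟩
  have f1 := hT1.1
  have f2 := hS1.1
  have hX : finrank ℚ (T ⊔ S : Submodule ℚ ℂ) ≤ 2 * m := by
    have := Submodule.finrank_add_le_finrank_add_finrank T S
    omega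
  have hk : InL L (T ⊓ S) y := hinf L (T ⊔ S) (hT1.sup hS1) (hF _ (hT1.sup hS1) hX) T le_sup_left
    S le_sup_right y hT3 hS3
  have hle : finrank ℚ (T ⊓ S : Submodule ℚ ℂ) ≤ finrank ℚ T :=
    Submodule.finrank_mono inf_le_left
  have h1 : Nat.find hex ≤ finrank ℚ (T ⊓ S : Submodule ℚ ℂ) :=
    Nat.find_min' hex ⟨T ⊓ S, ⟨hT1.inf, le_inf hT2 hS2, hle.trans hT2', hk⟩, rfl⟩
  rw [← hT4] at h1
  have h3 : (T ⊓ S : Submodule ℚ ℂ) = T :=
    Submodule.eq_of_le_of_finrank_le inf_le_left h1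
  rw [← h3]
  exact inf_le_right

/-- the bad set over `L` -/
def BadB (L : Set ℂ) (r : ℕ) (W : Submodule ℚ ℂ) (g : ℂ) : Set ℕ :=
  {b | ∃ S, Good S ∧ W ≤ S ∧ finrank ℚ S ≤ finrank ℚ W + r ∧ InL L S (g + lg b)}

/-- bad with respect to the least space over `W` attached to `y` -/
def BadLB (L : Set ℂ) (r : ℕ) (W : Submodule ℚ ℂ) (M : ℕ) (y h : ℂ) : Set ℕ :=
  {b | ∃ V, Good V ∧ W ≤ V ∧ finrank ℚ V ≤ M ∧ InL L V y ∧
    (∀ S, Good S → W ≤ S → finrank ℚ S ≤ M → InL L S y → V ≤ S) ∧ b ∈ BadB L r V h}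

lemma BadLB_sm {L : Set ℂ} {P : Finset ℕ} (hP : ∀ p ∈ P, p.Prime) {r M : ℕ} {ε : ℝ} (hε : 0 ≤ ε)
    (h : ∀ W : Submodule ℚ ℂ, Good W → finrank ℚ W ≤ M → ∀ g : ℂ, Sm P (BadB L r W g) ε)
    (W : Submodule ℚ ℂ) (y g : ℂ) : Sm P (BadLB L r W M y g) ε := by
  by_cases hex : ∃ V, Good V ∧ W ≤ V ∧ finrank ℚ V ≤ M ∧ InL L V y ∧
    (∀ S, Good S → W ≤ S → finrank ℚ S ≤ M → InL L S y → V ≤ S)
  · obtain ⟨V, hV1, hV2, hV3, hV4, hV5⟩ := hex
    apply (h V hV1 hV3 g).mono hP _ le_rfl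
    rintro b ⟨V', hV1', hV2', hV3', hV4', hV5', hb⟩
    have : V' = V := le_antisymm (hV5' V hV1 hV2 hV3 hV4) (hV5 V' hV1' hV2' hV3' hV4')
    rwa [this] at hb
  · intro Y hY hYA
    have : Y = ∅ := by
      rw [Finset.eq_empty_iff_forall_notMem]
      intro b hb
      obtain ⟨V, hV1, hV2, hV3, hV4, hV5, _⟩ := hYA b hb
      exact hex ⟨V, hV1, hV2, hV3, hV4, hV5⟩
    rw [this, Finset.sum_empty]
    exact mul_nonneg hε (ZP_pos hP).le

lemma BadB_mono {L : Set ℂ} {r r' : ℕ} (h : r ≤ r') (W : Submodule ℚ ℂ) (g : ℂ) :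
    BadB L r W g ⊆ BadB L r' W g := by
  rintro b ⟨S, h1, h2, h3, h4⟩
  exact ⟨S, h1, h2, by omega, h4⟩

lemma BadB_least (hinf : S_inf) {L : Set ℂ} {m : ℕ} (hF : FreeUp L (2 * m)) {r : ℕ}
    {W : Submodule ℚ ℂ} {g : ℂ} {b : ℕ} (hm : finrank ℚ W + r ≤ m) (hb : b ∈ BadB L r W g) :
    ∃ T, Good T ∧ W ≤ T ∧ finrank ℚ T ≤ finrank ℚ W + r ∧ InL L T (g + lg b) ∧
      ∀ S, Good S → W ≤ S → finrank ℚ S ≤ m → InL L S (g + lg b) → T ≤ S := by
  obtain ⟨S, h1, h2, h3, h4⟩ := hb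
  obtain ⟨T, hT1, hT2, hT3, hT4, hT5⟩ :=
    exists_leastL hinf hF ⟨S, h1, h2, h3.trans hm, h4⟩
  have := h1.1
  exact ⟨T, hT1, hT2, (Submodule.finrank_mono (hT5 S h1 h2 (h3.trans hm) h4)).trans h3, hT4, hT5⟩

lemma lg_mul {s t : ℕ} (hs : s ≠ 0) (ht : t ≠ 0) : lg (s * t) = lg s + lg t :=
  log_mul_cast hs ht

lemma exchangeL (hinf : S_inf) (hral : S_ral) {L : Set ℂ} {W T1 T4 : Submodule ℚ ℂ} {y1 y4 : ℂ}
    {r M M1 : ℕ} (hM1 : M1 = 2 * (M + (r + 1))) (hF : FreeUp L (2 * M1)) (hWM : finrank ℚ W ≤ M)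
    (hT1 : Good T1) (hT4 : Good T4) (hW1 : W ≤ T1) (hW4 : W ≤ T4)
    (hy1 : InL L T1 y1) (hy4 : InL L T4 y4) (hr1 : finrank ℚ T1 ≤ finrank ℚ W + (r + 1))
    (hr4 : finrank ℚ T4 ≤ finrank ℚ W + (r + 1)) (hne : T1 ≠ T4) :
    ∃ V, Good V ∧ W ≤ V ∧ finrank ℚ V ≤ M1 ∧ InL L V (y1 - y4) ∧
    (∀ S, Good S → W ≤ S → finrank ℚ S ≤ M1 → InL L S (y1 - y4) → V ≤ S) ∧
      ∃ S, Good S ∧ V ≤ S ∧ finrank ℚ S ≤ finrank ℚ V + r ∧ InL L S y1 := by
  have hsup : Good (T1 ⊔ T4) := hT1.sup hT4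
  have f1 := hT1.1
  have f4 := hT4.1
  have fs := hsup.1
  have hd : finrank ℚ (T1 ⊔ T4 : Submodule ℚ ℂ) ≤ M1 := by
    have := Submodule.finrank_add_le_finrank_add_finrank T1 T4
    omega
  have hsK : InL L (T1 ⊔ T4) (y1 - y4) := (hy1.mono le_sup_left).sub (hy4.mono le_sup_right)
  obtain ⟨V, hV1, hV2, hV3, hV4, hV5⟩ := exists_leastL hinf hF (W := W) (y := y1 - y4)
    ⟨T1 ⊔ T4, hsup, hW1.trans le_sup_left, hd, hsK⟩
  have hVX : V ≤ T1 ⊔ T4 := hV5 _ hsup (hW1.trans le_sup_left) hd hsK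
  have hFX : FreeL L (T1 ⊔ T4) := hF _ hsup (by omega)
  have hRX : T1 ⊓ T4 ≤ T1 ⊔ T4 := inf_le_left.trans le_sup_left
  have fV := hV1.1
  refine ⟨V, hV1, hV2, hV3, hV4, hV5, (T1 ⊓ T4) ⊔ V, hT1.inf.sup hV1, le_sup_right, ?_, ?_⟩
  · set R := T1 ⊓ T4 with hR
    have fR : FiniteDimensional ℚ R := (hT1.inf (B := T4)).1
    have e2 := Submodule.finrank_sup_add_finrank_inf_eq R V
    have fRV : FiniteDimensional ℚ (R ⊓ V : Submodule ℚ ℂ) :=
      Submodule.finiteDimensional_of_le inf_le_left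
    have e3 : finrank ℚ W ≤ finrank ℚ (R ⊓ V : Submodule ℚ ℂ) :=
      Submodule.finrank_mono (le_inf (le_inf hW1 hW4) hV2)
    have e4 : finrank ℚ R ≤ finrank ℚ W + r := by
      by_contra hcon
      push Not at hcon
      have g1 : R = T1 := Submodule.eq_of_le_of_finrank_le inf_le_left (by omega)
      have g4 : R = T4 := Submodule.eq_of_le_of_finrank_le inf_le_right (by omega)
      exact hne (g1.symm.trans g4)
    omega
  · exact hral L (T1 ⊔ T4) hsup hFX T1 le_sup_left T4 le_sup_right ((T1 ⊓ T4) ⊔ V)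
      (sup_le hRX hVX) le_sup_left y1 y4 hy1 hy4 (hV4.mono le_sup_right)

/-- the uniform smallness statement over `L` -/
def QB (t r : ℕ) : Prop := ∀ (M : ℕ) (ε : ℝ), 0 < ε → ∀ x₀ : ℕ, ∃ (m : ℕ) (P : Finset ℕ),
  (∀ p ∈ P, p.Prime ∧ x₀ < p) ∧ ∀ L : Set ℂ, AM.eRk L ≤ t → FreeUp L m →
    ∀ W : Submodule ℚ ℂ, Good W → finrank ℚ W ≤ M → ∀ g : ℂ, Sm P (BadB L r W g) ε

theorem QB_succ (hinf : S_inf) (hral : S_ral) (hzs : S_zs) (hcs : S_cs) (hsp : S_sp) {t r : ℕ}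
    (hQ : QB t r) : QB t (r + 1) := by
  intro M ε hε x₀
  obtain ⟨M1, hM1⟩ : ∃ M1, M1 = 2 * (M + (r + 1)) := ⟨_, rfl⟩
  have hε1 : 0 < ε ^ 4 / 3 := by positivity
  obtain ⟨m1, P1, hP1, hb1⟩ := hQ M1 (ε ^ 4 / 3) hε1 x₀
  obtain ⟨m2, P2, hP2, hb2⟩ := hQ M1 (ε ^ 4 / 3) hε1 (max x₀ (P1.sup id))
  have h1 : ∀ p ∈ P1, p.Prime := fun p hp => (hP1 p hp).1
  have h2 : ∀ p ∈ P2, p.Prime := fun p hp => (hP2 p hp).1
  have hd : Disjoint P1 P2 := by
    rw [Finset.disjoint_left]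
    intro p hp hp'
    have h3 : p ≤ P1.sup id := Finset.le_sup (f := id) hp
    have h4 := (hP2 p hp').2
    have h5 := le_max_right x₀ (P1.sup id)
    omega
  refine ⟨max (2 * M1) (max m1 m2), P1 ∪ P2, ?_, fun L hL hF W hW hWM g => ?_⟩
  · intro p hp
    rcases Finset.mem_union.mp hp with hp | hp
    · exact hP1 p hp
    · exact ⟨h2 p hp, lt_of_le_of_lt (le_max_left _ _) (hP2 p hp).2⟩
  · have hF0 : FreeUp L (2 * M1) := hF.mono (le_max_left _ _)
    have hF1 : FreeUp L m1 := hF.mono ((le_max_left _ _).trans (le_max_right _ _))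
    have hF2 : FreeUp L m2 := hF.mono ((le_max_right _ _).trans (le_max_right _ _))
    have hb1' := hb1 L hL hF1
    have hb2' := hb2 L hL hF2
    have hm : finrank ℚ W + (r + 1) ≤ M1 := by omega
    refine four_corners hzs hcs hsp h1 h2 hd hε1.le hε.le (by linarith)
      (fun s s' => BadLB L r W M1 (lg s - lg s') (g + lg s))
      (fun t t' => BadLB L r W M1 (lg t - lg t') (g + lg t))
      (fun s t t' => BadLB L r W M1 (g + lg (s * t)) (g + lg t'))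
      (fun s s' => BadLB_sm h2 hε1.le hb2' _ _ _) (fun s s' => BadLB_sm h1 hε1.le hb1' _ _ _)
      (fun s t t' => BadLB_sm h1 hε1.le hb1' _ _ _) ?_
    intro s s' t t' hs hs' ht ht' c1 c4 _ c2
    have hs0 := Nat.ne_zero_of_mem_factoredNumbers hs
    have hs0' := Nat.ne_zero_of_mem_factoredNumbers hs'
    have ht0 := Nat.ne_zero_of_mem_factoredNumbers ht
    have ht0' := Nat.ne_zero_of_mem_factoredNumbers ht'
    obtain ⟨T1, a1, a2, a3, a4, a5⟩ := BadB_least hinf hF0 hm c1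
    obtain ⟨T4, d1, d2, d3, d4, d5⟩ := BadB_least hinf hF0 hm c4
    obtain ⟨T2, e1, e2, e3, e4, e5⟩ := BadB_least hinf hF0 hm c2
    by_cases h14 : T1 = T4
    · by_cases h42 : T4 = T2
      · right; right
        refine ⟨T1, a1, a2, ?_, a4, a5, T1, a1, le_rfl, by omega, ?_⟩
        · omega
        · rw [h14, h42]
          rw [lg_mul hs0' ht0'] at e4
          have : g + lg t' + lg s' = g + (lg s' + lg t') := by ring
          rw [this]; exact e4
      · right; left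
        obtain ⟨V, b1, b2, b3, b4, b5, S, b6, b7, b8, b9⟩ :=
          exchangeL hinf hral hM1 hF0 hWM d1 e1 d2 e2 d4 e4 d3 e3 h42
        have hz : g + lg (s' * t) - (g + lg (s' * t')) = lg t - lg t' := by
          rw [lg_mul hs0' ht0, lg_mul hs0' ht0']; ring
        rw [hz] at b4 b5
        refine ⟨V, b1, b2, b3, b4, b5, S, b6, b7, b8, ?_⟩
        rw [lg_mul hs0' ht0] at b9
        have : g + lg t + lg s' = g + (lg s' + lg t) := by ring
        rw [this]; exact b9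
    · left
      obtain ⟨V, b1, b2, b3, b4, b5, S, b6, b7, b8, b9⟩ :=
        exchangeL hinf hral hM1 hF0 hWM a1 d1 a2 d2 a4 d4 a3 d3 h14
      have hz : g + lg (s * t) - (g + lg (s' * t)) = lg s - lg s' := by
        rw [lg_mul hs0 ht0, lg_mul hs0' ht0]; ring
      rw [hz] at b4 b5
      refine ⟨V, b1, b2, b3, b4, b5, S, b6, b7, b8, ?_⟩
      rw [lg_mul hs0 ht0] at b9
      have : g + lg s + lg t = g + (lg s + lg t) := by ring
      rw [this]; exact b9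

lemma mem_KS {s : Set ℂ} {z : ℂ} : z ∈ KS s ↔ z ∈ AM.closure s := mem_clF

theorem QB_zero (hlo : S_lo) (hcpt : S_cpt) (hno : ¬ EXC) (t : ℕ) : QB t 0 := by
  obtain ⟨C, hC, h⟩ := lo_sub hlo
  intro M ε hε x₀
  obtain ⟨P, hP, hE⟩ := hcpt hno (M + t) ((C / ε) ^ 2) x₀
  refine ⟨0, P, hP, fun L hL _ W hW hM g => ?_⟩
  have hPp : ∀ p ∈ P, p.Prime := fun p hp => (hP p hp).1
  have fW := hW.1
  have hrk : AM.eRk (expSet W ∪ L) ≤ ((M + t : ℕ) : ℕ∞) := by
    refine (AM.eRk_union_le_eRk_add_eRk _ _).trans ?_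
    rw [eRk_expSet hW.2]
    push_cast
    exact add_le_add (by exact_mod_cast hM) hL
  have hE1 : (C / ε) ^ 2 ≤ EK (KS (expSet W ∪ L)) P := hE _ hrk
  have hpos : 0 < (C / ε) ^ 2 := by positivity
  refine (h P hPp (KS (expSet W ∪ L)) g (hpos.trans_le hE1)).mono' hPp ?_ ?_
  · rintro b ⟨S, h1, h2, h3, h4⟩ _
    have := h1.1
    have h5 : W = S := Submodule.eq_of_le_of_finrank_le h2 h3
    change g + ((Real.log (b : ℝ) : ℝ) : ℂ) ∈ KS (expSet W ∪ L)
    rw [mem_KS, h5]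
    exact h4
  · rw [div_le_iff₀ (Real.sqrt_pos.mpr (hpos.trans_le hE1))]
    have h1 : C / ε ≤ √(EK (KS (expSet W ∪ L)) P) := Real.le_sqrt_of_sq_le hE1
    calc C = ε * (C / ε) := by field_simp
      _ ≤ ε * √(EK (KS (expSet W ∪ L)) P) := mul_le_mul_of_nonneg_left h1 hε.le

theorem QB_all (hinf : S_inf) (hral : S_ral) (hlo : S_lo) (hzs : S_zs) (hcs : S_cs) (hsp : S_sp)
    (hcpt : S_cpt) (hno : ¬ EXC) (t r : ℕ) : QB t r := by
  induction r with
  | zero => exact QB_zero hlo hcpt hno t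
  | succ r ih => exact QB_succ hinf hral hzs hcs hsp ih

/-- the exceptional set of tuples -/
def DD (n : ℕ) {r : ℕ} (c : Fin r → ℂ) : Set (Fin r → ℕ) :=
  {b | ∃ k ≤ n, ∃ α : Fin k → ℂ, (∀ i, IsAlgebraic ℚ (α i)) ∧ LinearIndependent ℚ α ∧
    ¬ AIx α (fun i => c i + lg (b i))}

lemma good_span' {n : ℕ} {α : Fin n → ℂ} (hα : ∀ i, IsAlgebraic ℚ (α i)) :
    Good (Submodule.span ℚ (range α)) :=
  ⟨FiniteDimensional.span_of_finite ℚ (Set.finite_range α), span_alg hα⟩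

/-- **the tuple theorem** -/
theorem tuples (hinf : S_inf) (hral : S_ral) (hlo : S_lo) (hzs : S_zs) (hcs : S_cs) (hsp : S_sp)
    (hmt : S_mt2) (hcpt : S_cpt) (hsnoc : S_snoc) (hfree : S_free) (hind : S_ind) (hno : ¬ EXC) :
    ∀ (r n : ℕ) (c : Fin r → ℂ), LNr (DD n c) := by
  obtain ⟨C, hC, hM⟩ := hmt
  intro r
  induction r with
  | zero =>
    intro n c
    have : DD n c = ∅ := by
      rw [Set.eq_empty_iff_forall_notMem]
      rintro b ⟨k, _, α, hα, hlin, hAI⟩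
      apply hAI
      have h1 : AlgebraicIndependent (integralClosure ℚ ℂ) (fun i : Fin k => Complex.exp (α i)) :=
        AlgebraicIndependent.integralClosure (lw α hα hlin)
      refine (algebraicIndependent_equiv' (Equiv.sumEmpty (Fin k) (Fin 0)) ?_).mpr h1
      ext (i | i)
      · rfl
      · exact i.elim0
    rw [this]
    unfold LNr Wt
    simp
  | succ r ih =>
    intro n c
    apply hind
    intro ε hε
    obtain ⟨m, P, hP, hb⟩ := QB_all hinf hral hlo hzs hcs hsp hcpt hno r n 0 (ε / C)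
      (by positivity) 0
    have hPp : ∀ p ∈ P, p.Prime := fun p hp => (hP p hp).1
    obtain ⟨N₀, hN₀⟩ := hM P hPp
    refine ⟨DD (max n m) (fun i => c i.castSucc), N₀, ih _ _, fun N hN b' hb' hb0 => ?_⟩
    set x : Fin r → ℂ := fun i => c i.castSucc + lg (b' i) with hx
    have hAI : ∀ k ≤ max n m, ∀ α : Fin k → ℂ, (∀ i, IsAlgebraic ℚ (α i)) →
        LinearIndependent ℚ α → AIx α x := by
      intro k hk α hα hlin
      by_contra hcon
      exact hb' ⟨k, hk, α, hα, hlin, hcon⟩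
    have hF : FreeUp (range x) m := hfree m r x (fun k hk => hAI k (hk.trans (le_max_right _ _)))
    have hrk : AM.eRk (range x) ≤ (r : ℕ∞) := by
      refine (AM.eRk_le_encard _).trans ?_
      rw [← image_univ]
      refine (encard_image_le _ _).trans ?_
      simp
    have hSm := hb (range x) hrk hF ⊥ Good.bot (by simp)
    have hkey := hN₀ N hN (BadB (range x) n ⊥ (c (Fin.last r)))
      (ε / C) (by positivity) (fun t ht => by
        refine (hSm (c (Fin.last r) + lg t)).mono' hPp ?_ le_rfl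
        rintro b ⟨S, h1, h2, h3, h4⟩ hb00
        refine ⟨S, h1, h2, h3, ?_⟩
        rw [lg_mul hb00 ht] at h4
        have e : c (Fin.last r) + lg t + lg b = c (Fin.last r) + (lg b + lg t) := by ring
        rw [e]; exact h4)
    have e1 : ε / C * (C * Real.log N) = ε * Real.log N := by field_simp
    rw [e1] at hkey
    refine le_trans (Finset.sum_le_sum ?_) hkey
    intro b _
    by_cases h1 : b ∈ {b : ℕ | (Fin.snoc b' b : Fin (r + 1) → ℕ) ∈ DD n c}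
    · have h2 : b ∈ BadB (range x) n ⊥ (c (Fin.last r)) := by
        obtain ⟨k, hk, α, hα, hlin, hnot⟩ := h1
        have e2 : (fun i => c i + lg ((Fin.snoc b' b : Fin (r + 1) → ℕ) i)) =
            (Fin.snoc x (c (Fin.last r) + lg b) : Fin (r + 1) → ℂ) := by
          funext i
          refine Fin.lastCases ?_ (fun j => ?_) i
          · simp
          · simp [hx]
        rw [e2, hsnoc k r α x _ hα hlin] at hnot
        have h3 : InL (range x) (Submodule.span ℚ (range α)) (c (Fin.last r) + lg b) := by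
          by_contra h4
          exact hnot ⟨hAI k (hk.trans (le_max_left _ _)) α hα hlin, h4⟩
        refine ⟨_, good_span' hα, bot_le, ?_, h3⟩
        rw [finrank_span_eq_card hlin, Fintype.card_fin]
        omega
      rw [Set.indicator_of_mem h1, Set.indicator_of_mem h2]
    · rw [Set.indicator_of_notMem h1]
      apply Set.indicator_nonneg
      intro b _; positivity

end Pool.Agent.Lib.MP_c82530_nt.AB
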